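import Pool.Agent.R684.PN.Stm

/-!
# PK/CMP: comparison of von Neumann dimensions for a subgroup

Author: helper697 (project PK of helper431).
-/

set_option autoImplicit false
set_option linter.unusedSectionVars false

open scoped InnerProductSpace InnerProduct ENNReal

noncomputable section

namespace Pool.Agent.N697.PK

open Pool.Agent.W649.ZL

section ext

variable {A B : Type} (j : A → B) (hj : Function.Injective j)

include hj in
theorem ext_memlp (v : lp (fun _ : A => ℂ) 2) :
    Memℓp (Function.extend j (fun a => v a) 0 : B → ℂ) 2 := by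
  rw [memlp_two_iff]
  rw [← hj.summable_iff]
  · have h : ((fun b => ‖(Function.extend j (fun a => v a) 0 : B → ℂ) b‖ ^ 2) ∘ j) =
        fun a => ‖v a‖ ^ 2 := by
      funext a
      simp only [Function.comp_apply]
      rw [hj.extend_apply]
    rw [h]
    exact (memlp_two_iff _).1 v.2
  · intro b hb
    rw [Function.extend_apply']
    · simp
    · rintro ⟨a, rfl⟩
      exact hb ⟨a, rfl⟩

/-- extension by zero -/
def ex (v : lp (fun _ : A => ℂ) 2) : lp (fun _ : B => ℂ) 2 :=
  ⟨Function.extend j (fun a => v a) 0, ext_memlp j hj v⟩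

theorem ex_apply (v : lp (fun _ : A => ℂ) 2) (a : A) : ex j hj v (j a) = v a :=
  hj.extend_apply _ _ a

theorem ex_apply' (v : lp (fun _ : A => ℂ) 2) (b : B) (hb : ¬ ∃ a, j a = b) :
    ex j hj v b = 0 := by
  show Function.extend j (fun a => v a) 0 b = 0
  rw [Function.extend_apply' _ _ _ hb]
  rfl

theorem ex_ext (v : lp (fun _ : A => ℂ) 2) (w : lp (fun _ : B => ℂ) 2)
    (h1 : ∀ a, w (j a) = v a) (h2 : ∀ b, (¬ ∃ a, j a = b) → w b = 0) : ex j hj v = w := by
  ext b
  by_cases hb : ∃ a, j a = b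
  · obtain ⟨a, rfl⟩ := hb
    rw [ex_apply, h1]
  · rw [ex_apply' j hj v b hb, h2 b hb]

/-- the isometry -/
def exI : lp (fun _ : A => ℂ) 2 →ₗᵢ[ℂ] lp (fun _ : B => ℂ) 2 where
  toFun v := ex j hj v
  map_add' v w := by
    apply ex_ext
    · intro a
      show ex j hj v (j a) + ex j hj w (j a) = v a + w a
      rw [ex_apply, ex_apply]
    · intro b hb
      show ex j hj v b + ex j hj w b = 0
      rw [ex_apply' j hj v b hb, ex_apply' j hj w b hb, add_zero]
  map_smul' c v := by
    apply ex_ext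
    · intro a
      show c * ex j hj v (j a) = c * v a
      rw [ex_apply]
    · intro b hb
      show c * ex j hj v b = 0
      rw [ex_apply' j hj v b hb, mul_zero]
  norm_map' v := by
    have h1 : ⟪ex j hj v, ex j hj v⟫_ℂ = ⟪v, v⟫_ℂ := by
      rw [lp.inner_eq_tsum, lp.inner_eq_tsum, ← hj.tsum_eq]
      · refine tsum_congr fun a => ?_
        rw [ex_apply]
      · intro b hb
        by_contra hc
        apply hb
        show ⟪ex j hj v b, ex j hj v b⟫_ℂ = 0
        rw [ex_apply' j hj v b hc]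
        simp
    rw [inner_self_eq_norm_sq_to_K, inner_self_eq_norm_sq_to_K] at h1
    have h2 : ‖ex j hj v‖ ^ 2 = ‖v‖ ^ 2 := by exact_mod_cast h1
    exact (sq_eq_sq₀ (norm_nonneg _) (norm_nonneg _)).1 h2

theorem exI_apply (v : lp (fun _ : A => ℂ) 2) (a : A) : exI j hj v (j a) = v a :=
  ex_apply j hj v a

theorem exI_apply' (v : lp (fun _ : A => ℂ) 2) (b : B) (hb : ¬ ∃ a, j a = b) :
    exI j hj v b = 0 := ex_apply' j hj v b hb

end ext

theorem t_CMP : Pool.Agent.R684.PN.S_CMP := by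
  intro Γ H S J _ _ _ _ ι hι U hU hUI B hB hinj m g hg
  -- the embedding of the index sets
  let j : H × (Fin m × S) → Γ × S := fun a => (g a.2.1 * ι a.1, a.2.2)
  have hj : Function.Injective j := by
    rintro ⟨h, t, s⟩ ⟨h', t', s'⟩ e
    simp only [j, Prod.mk.injEq] at e
    obtain ⟨e1, e2⟩ := e
    have e3 : g t * ι (h * h'⁻¹) = g t' := by
      rw [map_mul, map_inv, ← mul_assoc, e1]
      group
    have e4 := hg t t' _ e3
    subst e4
    have e5 : h = h' := hι (mul_left_cancel e1)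
    rw [e5, e2]
  let E := exI j hj
  have hEt : ∀ (k : H) (v : EE H (Fin m × S)), E (tr k v) = tr (ι k) (E v) := by
    intro k v
    refine ex_ext j hj _ _ ?_ ?_
    · rintro ⟨h, t, s⟩
      rw [tr_apply, tr_apply]
      have e : ((g t * ι h) * ι k, s) = j (h * k, t, s) := by
        simp only [j, map_mul, mul_assoc]
      show E v ((g t * ι h) * ι k, s) = v (h * k, t, s)
      rw [e]
      exact exI_apply j hj v _
    · rintro ⟨γ, s⟩ hb
      rw [tr_apply]
      apply exI_apply'
      rintro ⟨⟨h, t, s'⟩, e⟩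
      apply hb
      simp only [j, Prod.mk.injEq] at e
      refine ⟨(h * k⁻¹, t, s'), ?_⟩
      simp only [j, Prod.mk.injEq]
      refine ⟨?_, e.2⟩
      rw [map_mul, map_inv, ← mul_assoc, e.1]
      group
  have hEd : ∀ (t : Fin m) (s : S), E (dl ((1 : H), (t, s))) = tr (g t)⁻¹ (dl ((1 : Γ), s)) := by
    intro t s
    have e0 : j (1, t, s) = (g t, s) := by simp [j]
    rw [tr_dl, one_mul, inv_inv, ← e0]
    refine ex_ext j hj _ _ ?_ ?_
    · intro a
      by_cases ha : a = (1, t, s)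
      · rw [ha, dl_apply_self, dl_apply_self]
      · rw [dl_apply_ne _ _ ha, dl_apply_ne]
        intro h
        exact ha (hj h)
    · intro b hb
      rw [dl_apply_ne]
      intro h
      exact hb ⟨_, h.symm⟩
  have : CompleteSpace U := hU.completeSpace_coe
  let PU : EE Γ S →L[ℂ] EE Γ S := U.starProjection
  let T : EE H (Fin m × S) →L[ℂ] EE H J := B.comp (PU.comp E.toContinuousLinearMap)
  have hTa : ∀ v, T v = B (PU (E v)) := fun v => rfl
  have hTe : Eqv T := by
    intro k v
    rw [hTa, hTa, hEt]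
    have h1 : PU (tr (ι k) (E v)) = tr (ι k) (PU (E v)) := proj_tr hUI (ι k) (E v)
    rw [h1, hB]
  set K : Submodule ℂ (EE H (Fin m × S)) :=
    LinearMap.ker (T : EE H (Fin m × S) →ₗ[ℂ] EE H J) with hK
  have hKc : IsClosed (K : Set (EE H (Fin m × S))) := ContinuousLinearMap.isClosed_ker T
  have : CompleteSpace K := hKc.completeSpace_coe
  have hker : ∀ v ∈ K, PU (E v) = 0 := by
    intro v hv
    have h1 : T v = 0 := hv
    exact hinj _ (Submodule.starProjection_apply_mem U _) h1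
  have hle : ∀ v, ‖PU (E v)‖ ≤ ‖Kᗮ.starProjection v‖ := by
    intro v
    have h1 : v - Kᗮ.starProjection v ∈ K := by
      have h2 : v - Kᗮ.starProjection v ∈ Kᗮᗮ :=
        Submodule.sub_starProjection_mem_orthogonal _
      rwa [Submodule.orthogonal_orthogonal] at h2
    have h3 := hker _ h1
    rw [map_sub, map_sub, sub_eq_zero] at h3
    rw [h3]
    calc ‖PU (E (Kᗮ.starProjection v))‖ ≤ ‖E (Kᗮ.starProjection v)‖ :=
          Submodule.norm_starProjection_apply_le _ _
      _ = ‖Kᗮ.starProjection v‖ := E.norm_map _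
  have hd : ∀ (t : Fin m) (s : S), ‖U.starProjection (dl ((1 : Γ), s))‖ =
      ‖PU (E (dl ((1 : H), (t, s))))‖ := by
    intro t s
    rw [hEd]
    have h1 : PU (tr (g t)⁻¹ (dl ((1 : Γ), s))) = tr (g t)⁻¹ (PU (dl ((1 : Γ), s))) :=
      proj_tr hUI _ _
    rw [h1, norm_tr]
  have hvU : vd U = ∑ s : S, ‖U.starProjection (dl ((1 : Γ), s))‖ ^ 2 := vd_eq U U (topcl_eq hU)
  have hvK : vd Kᗮ = ∑ x : Fin m × S, ‖Kᗮ.starProjection (dl ((1 : H), x))‖ ^ 2 :=
    vd_eq Kᗮ Kᗮ (topcl_eq (Submodule.isClosed_orthogonal K))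
  have h1 : (m : ℝ) * vd U ≤ vd Kᗮ := by
    rw [hvU, hvK, Fintype.sum_prod_type]
    have h2 : (m : ℝ) * ∑ s : S, ‖U.starProjection (dl ((1 : Γ), s))‖ ^ 2 =
        ∑ _t : Fin m, ∑ s : S, ‖U.starProjection (dl ((1 : Γ), s))‖ ^ 2 := by
      rw [Finset.sum_const, Finset.card_univ, Fintype.card_fin, nsmul_eq_mul]
    rw [h2]
    refine Finset.sum_le_sum fun t _ => Finset.sum_le_sum fun s _ => ?_
    rw [hd t s]
    exact pow_le_pow_left₀ (norm_nonneg _) (hle _) 2
  have h2 : vd Kᗮ = vd (LinearMap.range (T : EE H (Fin m × S) →ₗ[ℂ] EE H J)) := by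
    have h3 : Kᗮ = (LinearMap.range
        (ContinuousLinearMap.adjoint T : EE H J →ₗ[ℂ] EE H (Fin m × S))).topologicalClosure :=
      ContinuousLinearMap.orthogonal_ker T
    rw [h3, vd_closure, vd_range_adjoint T hTe]
  calc (m : ℝ) * vd U ≤ vd Kᗮ := h1
    _ = vd (LinearMap.range (T : EE H (Fin m × S) →ₗ[ℂ] EE H J)) := h2
    _ ≤ vd (⊤ : Submodule ℂ (EE H J)) := vd_mono le_top
    _ = Fintype.card J := vd_top

end Pool.Agent.N697.PK
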